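import Mathlib
import Pool.Agent.H79.DGDefs
import Pool.Agent.H79.LV2
import Pool.Agent.H79.CBCube

set_option autoImplicit false

namespace Pool.Agent.Results.MP_2332b0_al.NoCI

open MvPolynomial Finsupp Pool.Agent.H79.DG Pool.Agent.H79.LV

variable {K : Type} [Field K]

theorem act_monomial (m : Fin 4 →₀ ℕ) (c : K) (F : MvPolynomial (Fin 4) K) :
    act (monomial m c) F = c • dop m F := by
  classical
  by_cases hc : c = 0
  · simp [act, hc]
  · simp [act, support_monomial, hc]

theorem act_add (g h F : MvPolynomial (Fin 4) K) : act (g + h) F = act g F + act h F := by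
  classical
  have key : ∀ (p : MvPolynomial (Fin 4) K) (s : Finset (Fin 4 →₀ ℕ)), p.support ⊆ s →
      act p F = ∑ m ∈ s, coeff m p • dop m F := fun p s hs =>
    Finset.sum_subset hs fun m _ hm => by simp [MvPolynomial.notMem_support_iff.1 hm]
  rw [key _ _ MvPolynomial.support_add, key g _ Finset.subset_union_left,
    key h _ Finset.subset_union_right, ← Finset.sum_add_distrib]
  simp [add_smul]

noncomputable def ex (a b c d : ℕ) : Fin 4 →₀ ℕ :=
  single 0 a + single 1 b + single 2 c + single 3 d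

theorem ex_eq (m : Fin 4 →₀ ℕ) : m = ex (m 0) (m 1) (m 2) (m 3) := by
  ext i; fin_cases i <;> simp [ex]

theorem ex0 (a b c d : ℕ) : ex a b c d + single 0 1 = ex (a + 1) b c d := by
  ext i; fin_cases i <;> simp [ex]
theorem ex1 (a b c d : ℕ) : ex a b c d + single 1 1 = ex a (b + 1) c d := by
  ext i; fin_cases i <;> simp [ex]
theorem ex2 (a b c d : ℕ) : ex a b c d + single 2 1 = ex a b (c + 1) d := by
  ext i; fin_cases i <;> simp [ex]
theorem ex3 (a b c d : ℕ) : ex a b c d + single 3 1 = ex a b c (d + 1) := by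
  ext i; fin_cases i <;> simp [ex]

theorem dop_ex (a b c d : ℕ) (F : MvPolynomial (Fin 4) K) :
    dop (ex a b c d) F = (pderiv 0)^[a] ((pderiv 1)^[b] ((pderiv 2)^[c] ((pderiv 3)^[d] F))) := by
  simp [dop, ex, List.ofFn_succ, Module.End.pow_apply]

theorem act_X (j : Fin 4) (c : K) (F : MvPolynomial (Fin 4) K) :
    act (C c * X j) F = c • pderiv j F := by
  rw [X, C_mul_monomial, mul_one, act_monomial, ex_eq (single j 1), dop_ex]
  fin_cases j <;> simp

theorem kill [CharZero K] (a : Fin 4 → K) (ha : ∀ j, a j ≠ 0) (F : MvPolynomial (Fin 4) K)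
    (hF : F.IsHomogeneous 4) (hJ : ∀ g ∈ J0 K, act g F = 0)
    (hL : act (∑ j, C (a j) * X j) F = 0) : pderiv 0 F = 0 ∧ pderiv 2 F = 0 := by
  have ne : ∀ n : ℕ, (n : K) + 1 ≠ 0 := fun n => Nat.cast_add_one_ne_zero n
  have h01 : ∀ p q r s, coeff (ex (p + 1) (q + 1) r s) F = 0 := by
    intro p q r s
    have h := hJ (monomial (ex 1 1 0 0) 1) (Ideal.mem_sup_left (Ideal.subset_span (Or.inl (by
      simp [ex, X, monomial_mul]))))
    rw [act_monomial, dop_ex] at h
    have h2 := congrArg (coeff (ex p q r s)) h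
    simpa [coeff_pderiv, ex0, ex1, ne] using h2
  have h23 : ∀ p q r s, coeff (ex p q (r + 1) (s + 1)) F = 0 := by
    intro p q r s
    have h := hJ (monomial (ex 0 0 1 1) 1) (Ideal.mem_sup_left (Ideal.subset_span (Or.inr (by
      simp [ex, X, monomial_mul]))))
    rw [act_monomial, dop_ex] at h
    have h2 := congrArg (coeff (ex p q r s)) h
    simpa [coeff_pderiv, ex2, ex3, ne] using h2
  have h0 : ∀ p q r s, coeff (ex (p + 1 + 1 + 1) q r s) F = 0 := by
    intro p q r s
    have h := hJ (monomial (ex 3 0 0 0) 1) (Ideal.mem_sup_right (Ideal.subset_span (Or.inl (by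
      simp [ex, X_pow_eq_monomial]))))
    rw [act_monomial, dop_ex] at h
    have h2 := congrArg (coeff (ex p q r s)) h
    simpa only [one_smul, Function.iterate_succ, Function.iterate_zero, Function.comp_apply, id,
      coeff_pderiv, ex0, coeff_zero, mul_eq_zero, ne, or_false] using h2
  have h2 : ∀ p q r s, coeff (ex p q (r + 1 + 1 + 1) s) F = 0 := by
    intro p q r s
    have h := hJ (monomial (ex 0 0 3 0) 1) (Ideal.mem_sup_right (Ideal.subset_span
      (Or.inr (Or.inr (Or.inl (by simp [ex, X_pow_eq_monomial]))))))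
    rw [act_monomial, dop_ex] at h
    have h2 := congrArg (coeff (ex p q r s)) h
    simpa only [one_smul, Function.iterate_succ, Function.iterate_zero, Function.comp_apply, id,
      coeff_pderiv, ex2, coeff_zero, mul_eq_zero, ne, or_false] using h2
  have hl : ∀ p q r s : ℕ, a 0 * (coeff (ex (p + 1) q r s) F * (p + 1)) +
      a 1 * (coeff (ex p (q + 1) r s) F * (q + 1)) + a 2 * (coeff (ex p q (r + 1) s) F * (r + 1)) +
      a 3 * (coeff (ex p q r (s + 1)) F * (s + 1)) = 0 := by
    intro p q r s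
    rw [Fin.sum_univ_four, act_add, act_add, act_add, act_X, act_X, act_X, act_X] at hL
    have h2 := congrArg (coeff (ex p q r s)) hL
    simp only [coeff_add, coeff_smul, coeff_pderiv, ex0, ex1, ex2, ex3, smul_eq_mul,
      coeff_zero] at h2
    simpa [ex] using h2
  have n3 : (2 : K) + 1 ≠ 0 := by norm_num
  have e1 : coeff (ex 2 0 2 0) F = 0 := by
    have := hl 2 0 1 0
    simpa [h0 0, h01 1 0, h23 2 0 0 0, ha, ne 1] using this
  have e2 : coeff (ex 2 0 0 2) F = 0 := by
    have := hl 2 0 0 1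
    simpa [h0 0, h01 1 0, h23 2 0 0 0, ha, ne 1] using this
  have e3 : coeff (ex 1 0 0 3) F = 0 := by
    have := hl 1 0 0 2
    simpa [e2, h01 0 0, h23 1 0 0 1, ha, n3] using this
  have e4 : coeff (ex 0 2 2 0) F = 0 := by
    have := hl 0 1 2 0
    simpa [h01 0 0, h2 0 1 0, h23 0 1 1 0, ha, ne 1] using this
  have e5 : coeff (ex 0 3 1 0) F = 0 := by
    have := hl 0 2 1 0
    simpa [e4, h01 0 1, h23 0 2 0 0, ha, n3] using this
  have hd : ∀ p q r s, p + q + r + s ≠ 4 → coeff (ex p q r s) F = 0 := fun p q r s h =>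
    hF.coeff_eq_zero (by simpa [ex] using h)
  constructor
  · ext m
    rw [ex_eq m, coeff_pderiv, ex0, coeff_zero, mul_eq_zero]
    left
    generalize m 0 = p, m 1 = q, m 2 = r, m 3 = s
    by_cases h : p + 1 + q + r + s = 4
    swap
    · exact hd _ _ _ _ h
    rcases q with _ | q
    swap
    · exact h01 ..
    rcases p with _ | _ | p
    rotate_left 2
    · exact h0 ..
    all_goals
      rcases r with _ | r
      · obtain rfl : s = _ := (Nat.eq_sub_of_add_eq' h)
        first | exact e2 | exact e3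
      rcases s with _ | s
      swap
      · exact h23 ..
    · obtain rfl : r = 2 := by omega
      exact h2 ..
    · obtain rfl : r = 1 := by omega
      exact e1
  · ext m
    rw [ex_eq m, coeff_pderiv, ex2, coeff_zero, mul_eq_zero]
    left
    generalize m 0 = p, m 1 = q, m 2 = r, m 3 = s
    by_cases h : p + q + (r + 1) + s = 4
    swap
    · exact hd _ _ _ _ h
    rcases s with _ | s
    swap
    · exact h23 ..
    rcases r with _ | _ | r
    rotate_left 2
    · exact h2 ..
    all_goals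
      rcases p with _ | p
      · first
        | (obtain rfl : q = 3 := by omega
           exact e5)
        | (obtain rfl : q = 2 := by omega
           exact e4)
      rcases q with _ | q
      swap
      · exact h01 ..
    · obtain rfl : p = 2 := by omega
      exact h0 ..
    · obtain rfl : p = 1 := by omega
      exact e1

theorem not_mem (a : Fin 4 → K) (ha : ∀ j, a j ≠ 0) (θ : Fin 2 → MvPolynomial (Fin 4) K)
    (hθ : ∀ i, constantCoeff (θ i) = 0)
    (h0 : X 0 ∈ I0 K ⊔ Ideal.span (Set.range θ)) (h2 : X 2 ∈ I0 K ⊔ Ideal.span (Set.range θ))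
    (hL : (∑ j, C (a j) * X j) ∈ I0 K ⊔ Ideal.span (Set.range θ)) : False := by
  classical
  let Λ : MvPolynomial (Fin 4) K → Fin 4 → K := fun f j => constantCoeff (pderiv j f)
  let V : Submodule K (Fin 4 → K) := Submodule.span K (Set.range fun i => Λ (θ i))
  let W : Ideal (MvPolynomial (Fin 4) K) :=
    { carrier := {f | constantCoeff f = 0 ∧ Λ f ∈ V}
      add_mem' := by
        rintro f g ⟨h1, h2⟩ ⟨h3, h4⟩
        refine ⟨by simp [h1, h3], ?_⟩
        have : Λ (f + g) = Λ f + Λ g := by funext j; simp [Λ]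
        rw [this]; exact V.add_mem h2 h4
      zero_mem' := ⟨by simp, by
        have : Λ 0 = 0 := by funext j; simp [Λ]
        rw [this]; exact V.zero_mem⟩
      smul_mem' := by
        rintro c f ⟨h1, h2⟩
        refine ⟨by simp [h1], ?_⟩
        have : Λ (c • f) = constantCoeff c • Λ f := by funext j; simp [Λ, h1]
        rw [this]; exact V.smul_mem _ h2 }
  have hW : I0 K ⊔ Ideal.span (Set.range θ) ≤ W := by
    refine sup_le (Ideal.span_le.2 ?_) (Ideal.span_le.2 ?_)
    · rintro f (rfl | rfl)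
      · refine ⟨by simp, ?_⟩
        have : Λ (X 0 * X 1) = 0 := by funext j; simp [Λ]
        rw [this]; exact V.zero_mem
      · refine ⟨by simp, ?_⟩
        have : Λ (X 2 * X 3) = 0 := by funext j; simp [Λ]
        rw [this]; exact V.zero_mem
    · rintro _ ⟨i, rfl⟩
      exact ⟨hθ i, Submodule.subset_span ⟨i, rfl⟩⟩
  have hX : ∀ i, Λ (X i) = Pi.single i 1 := by
    intro i; funext j
    by_cases h : j = i
    · subst h; simp [Λ]
    · simp [Λ, h, pderiv_X]
  have hLa : Λ (∑ j, C (a j) * X j) = a := by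
    funext j
    simp [Λ, pderiv_X, Pi.single_apply, apply_ite]
  have v0 := (hW h0).2
  have v2 := (hW h2).2
  have vL := (hW hL).2
  rw [hX] at v0 v2
  rw [hLa] at vL
  have h1 : Module.finrank K V ≤ 2 := (finrank_range_le_card _).trans (by simp)
  have h3 : V ⊔ Submodule.span K {Pi.single 3 1} = ⊤ := by
    rw [eq_top_iff]
    intro v _
    have : v = ((v 0 - v 1 / a 1 * a 0) • Pi.single 0 1 + (v 2 - v 1 / a 1 * a 2) • Pi.single 2 1 +
        (v 1 / a 1) • a) + (v 3 - v 1 / a 1 * a 3) • Pi.single 3 1 := by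
      funext j
      fin_cases j <;> simp [ha]
    rw [this]
    exact Submodule.add_mem_sup (V.add_mem (V.add_mem (V.smul_mem _ v0) (V.smul_mem _ v2))
      (V.smul_mem _ vL)) (Submodule.smul_mem _ _ (Submodule.subset_span rfl))
  have h4 := Submodule.finrank_sup_add_finrank_inf_eq V (Submodule.span K {Pi.single 3 1})
  have h5 : Module.finrank K (Submodule.span K {(Pi.single 3 1 : Fin 4 → K)}) = 1 :=
    finrank_span_singleton (by simp)
  rw [h3, finrank_top, Module.finrank_fin_fun] at h4
  omega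

theorem dim_eq : ringKrullDim (MvPolynomial (Fin 4) K ⧸ I0 K) = 2 := by
  have hd : ringKrullDim (MvPolynomial (Fin 2) K) = 2 := by
    rw [MvPolynomial.ringKrullDim_of_isNoetherianRing, ringKrullDim_eq_zero_of_field]
    simp
  apply le_antisymm
  · let q := Ideal.Quotient.mkₐ K (I0 K)
    let : Algebra (MvPolynomial (Fin 2) K) (MvPolynomial (Fin 4) K ⧸ I0 K) :=
      (aeval (R := K) ![q (X 0 + X 1), q (X 2 + X 3)]).toRingHom.toAlgebra
    have hs : ∀ i, algebraMap (MvPolynomial (Fin 2) K) (MvPolynomial (Fin 4) K ⧸ I0 K) (X i) =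
        ![q (X 0 + X 1), q (X 2 + X 3)] i := fun i => by
      simp [RingHom.algebraMap_toAlgebra]
    have key : ∀ (x y : MvPolynomial (Fin 4) K ⧸ I0 K) (s : MvPolynomial (Fin 2) K),
        algebraMap _ _ s = x + y → x * y = 0 → IsIntegral (MvPolynomial (Fin 2) K) x := by
      intro x y s h1 h2
      refine ⟨Polynomial.X ^ 2 - Polynomial.C s * Polynomial.X, by monicity!, ?_⟩
      simp only [Polynomial.eval₂_sub, Polynomial.eval₂_pow, Polynomial.eval₂_X,
        Polynomial.eval₂_mul, Polynomial.eval₂_C, h1]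
      linear_combination -h2
    have z1 : q (X 0) * q (X 1) = 0 := by
      rw [← map_mul]; exact Ideal.Quotient.eq_zero_iff_mem.2 (Ideal.subset_span (Or.inl rfl))
    have z2 : q (X 2) * q (X 3) = 0 := by
      rw [← map_mul]; exact Ideal.Quotient.eq_zero_iff_mem.2 (Ideal.subset_span (Or.inr rfl))
    have : Algebra.IsIntegral (MvPolynomial (Fin 2) K) (MvPolynomial (Fin 4) K ⧸ I0 K) :=
      ⟨fun x => by
        obtain ⟨f, rfl⟩ := Ideal.Quotient.mkₐ_surjective K (I0 K) x
        induction f using MvPolynomial.induction_on with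
        | C c =>
          have : Ideal.Quotient.mkₐ K (I0 K) (C c) =
              algebraMap (MvPolynomial (Fin 2) K) _ (C c) := by
            simp [RingHom.algebraMap_toAlgebra]
          rw [this]; exact isIntegral_algebraMap
        | add f g hf hg => rw [map_add]; exact hf.add hg
        | mul_X f i hf =>
          rw [map_mul]
          refine hf.mul ?_
          fin_cases i
          · exact key _ (q (X 1)) (X 0) (by rw [hs]; simp [q]) z1
          · exact key _ (q (X 0)) (X 0) (by rw [hs]; simp [q]; ring) (by rwa [mul_comm] at z1)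
          · exact key _ (q (X 3)) (X 1) (by rw [hs]; simp [q]) z2
          · exact key _ (q (X 2)) (X 1) (by rw [hs]; simp [q, add_comm])
              (by rwa [mul_comm] at z2)⟩
    exact (Pool.Agent.H79.CBCube.dim_le_of_integral (R := MvPolynomial (Fin 2) K)).trans hd.le
  · let f : MvPolynomial (Fin 4) K →ₐ[K] MvPolynomial (Fin 2) K := aeval ![X 0, 0, X 1, 0]
    have hf : Function.Surjective f := by
      intro p
      refine ⟨rename ![0, 2] p, ?_⟩
      rw [aeval_rename]
      have : (![X 0, 0, X 1, 0] ∘ ![0, 2] : Fin 2 → MvPolynomial (Fin 2) K) = X := by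
        funext i; fin_cases i <;> rfl
      rw [this, aeval_X_left_apply]
    have hI : ∀ x ∈ I0 K, f.toRingHom x = 0 := by
      have : I0 K ≤ RingHom.ker f.toRingHom := Ideal.span_le.2 (by
        rintro _ (rfl | rfl) <;> simp [f])
      exact fun x hx => this hx
    rw [← hd]
    exact ringKrullDim_le_of_surjective (Ideal.Quotient.lift _ f.toRingHom hI)
      (Ideal.Quotient.lift_surjective_of_surjective _ _ hf)

theorem std_J : Std (J0 K) (fun m => (m 0 = 0 ∨ m 1 = 0) ∧ (m 2 = 0 ∨ m 3 = 0) ∧ m 0 < 3 ∧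
    m 1 < 5 ∧ m 2 < 3 ∧ m 3 < 5) := by
  have h := std_span (K := K)
    {ex 1 1 0 0, ex 0 0 1 1, ex 3 0 0 0, ex 0 5 0 0, ex 0 0 3 0, ex 0 0 0 5}
  have e1 : Ideal.span ((fun m => monomial m (1 : K)) ''
      {ex 1 1 0 0, ex 0 0 1 1, ex 3 0 0 0, ex 0 5 0 0, ex 0 0 3 0, ex 0 0 0 5}) = J0 K := by
    rw [J0, I0, ← Ideal.span_union]
    congr 1
    simp only [Set.image_insert_eq, Set.image_singleton, X_pow_eq_monomial, Set.insert_union,
      Set.singleton_union]
    simp [ex, X, monomial_mul]
  rw [e1] at h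
  convert h using 2 with m
  simp only [Set.mem_insert_iff, Set.mem_singleton_iff, exists_eq_or_imp, exists_eq_left,
    Finsupp.le_def, Fin.forall_fin_succ]
  simp [ex]
  omega

/-- A counterexample: `n = 4`, `I = (x_1 x_2, x_3 x_4)`, exponents `(3, 5, 3, 5)`, `t = 4`. -/
theorem result (K : Type) [Field K] [CharZero K] :
    ringKrullDim (MvPolynomial (Fin 4) K ⧸ I0 K) = 2 ∧
    ∀ a : Fin 4 → K, (∀ j, a j ≠ 0) →
      ¬ (∀ x ∈ piece (J0 K) 3, Ideal.Quotient.mk (J0 K) (∑ j, C (a j) * X j) * x = 0 → x = 0) ∧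
      ¬ (∀ y ∈ piece (J0 K) 4, ∃ x ∈ piece (J0 K) 3,
          Ideal.Quotient.mk (J0 K) (∑ j, C (a j) * X j) * x = y) ∧
      ∀ F : MvPolynomial (Fin 4) K, F.IsHomogeneous 4 → (∀ g ∈ J0 K, act g F = 0) →
        act (∑ j, C (a j) * X j) F = 0 →
        ∀ θ : Fin 2 → MvPolynomial (Fin 4) K, (∀ i, ∃ d, 0 < d ∧ (θ i).IsHomogeneous d) →
          ann F ≠ (I0 K ⊔ Ideal.span (Set.range θ) : Ideal (MvPolynomial (Fin 4) K)) := by
  refine ⟨dim_eq, fun a ha => ⟨?_, ?_, fun F hF hJ hL θ hθ h => ?_⟩⟩
  · refine fun h => (inj_iff std_J a 3).1 h (NI_all (NI_of_NIp (std_J (K := K)).down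
      ⟨monomial (ex 1 0 2 0) 1 - monomial (ex 2 0 1 0) 1, ?_, ⟨ex 1 0 2 0, by simp [ex], ?_⟩,
        fun m hm => ?_⟩) a)
    · exact (isHomogeneous_monomial _ (by simp [ex])).sub (isHomogeneous_monomial _ (by simp [ex]))
    · rw [coeff_sub, coeff_monomial, coeff_monomial, if_pos rfl, if_neg]
      · simp
      · intro h
        simpa [ex] using DFunLike.congr_fun h 0
    · have key : ∀ p q r s, ¬ ((p = 0 ∨ q = 0) ∧ (r = 0 ∨ s = 0) ∧ p < 3 ∧ r < 3) →
          coeff m (monomial (ex p q r s) (1 : K)) = 0 := by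
        intro p q r s h
        rw [coeff_monomial, if_neg]
        rintro rfl
        simp [ex] at hm
        tauto
      rw [mul_sub, lin_mul_monomial, lin_mul_monomial]
      simp only [Fin.sum_univ_four, one_smul, ex0, ex1, ex2, ex3, coeff_sub, coeff_add]
      rw [key 1 1 2 0 (by omega), key 1 0 3 0 (by omega), key 1 0 2 1 (by omega),
        key 3 0 1 0 (by omega), key 2 1 1 0 (by omega), key 2 0 1 1 (by omega)]
      simp
  · refine fun h => (surj_iff std_J a 3).1 h (NS_all
      ⟨fun m => if m 0 = 0 ∧ m 2 = 0 ∧ m 1 + m 3 = 4 then (-1) ^ m 1 else 0,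
        ⟨ex 0 0 0 4, by simp [ex]⟩, fun m hm => ?_, fun u => ?_⟩ a)
    · have h1 : m 0 = 0 ∧ m 2 = 0 ∧ m 1 + m 3 = 4 := by
        by_contra h2
        simp only [if_neg h2, ne_eq, not_true_eq_false] at hm
      rw [degree_eq_sum, Fin.sum_univ_four]
      omega
    · rw [Fin.sum_univ_four]
      by_cases h1 : u 0 = 0 ∧ u 2 = 0 ∧ u 1 + u 3 = 3
      · have h2 : u 1 + 1 + u 3 = 4 := by omega
        have h3 : u 1 + (u 3 + 1) = 4 := by omega
        simp [h1, h2, h3, pow_succ]
      · have h2 : ¬ (u 0 = 0 ∧ u 2 = 0 ∧ u 1 + 1 + u 3 = 4) := by omega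
        have h3 : ¬ (u 0 = 0 ∧ u 2 = 0 ∧ u 1 + (u 3 + 1) = 4) := by omega
        simp [h2, h3]
  · obtain ⟨h0, h2⟩ := kill a ha F hF hJ hL
    have hm : ∀ g, act g F = 0 → g ∈ I0 K ⊔ Ideal.span (Set.range θ) := fun g hg => by
      have : g ∈ ann F := hg
      rwa [h] at this
    refine not_mem a ha θ (fun i => ?_) (hm _ ?_) (hm _ ?_) (hm _ hL)
    · obtain ⟨d, hd, h1⟩ := hθ i
      exact h1.coeff_eq_zero (by simp; omega)
    · simpa [h0] using act_X 0 1 F
    · simpa [h2] using act_X 2 1 F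

end Pool.Agent.Results.MP_2332b0_al.NoCI
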